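import Pool.Agent.W528.HA.Stm

/-! Project HA: duality by Gauss sums. -/

set_option autoImplicit false

namespace Pool.Agent.W800.HA.GD

open Finset Polynomial Pool.Agent.W528.HA

theorem msum {L C ι : Type} [Field L] [Field C] (ψ : AddChar L C) (s : Finset ι) (f : ι → L) :
    ψ (∑ i ∈ s, f i) = ∏ i ∈ s, ψ (f i) := by
  induction s using Finset.cons_induction with
  | empty => simp
  | cons a s ha ih => rw [sum_cons, prod_cons, AddChar.map_add_eq_mul, ih]

theorem one {L C : Type} [Field L] [Fintype L] [DecidableEq L] [Field C] (χ : MulChar L C)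
    (ψ : AddChar L C) (hχ : χ ≠ 1) (y : L) :
    gaussSum χ⁻¹ ψ * χ y = ∑ t : L, χ⁻¹ t * ψ (t * y) := by
  rcases eq_or_ne y 0 with rfl | hy
  · rw [MulChar.map_nonunit χ (by simp), mul_zero]
    simp only [mul_zero, AddChar.map_zero_eq_one, mul_one]
    exact (MulChar.sum_eq_zero_of_ne_one (inv_ne_one.2 hχ)).symm
  · have h1 : ∑ t : L, χ⁻¹ t * ψ (t * y) = ∑ t : L, χ⁻¹ (t * y⁻¹) * ψ t := by
      refine Fintype.sum_equiv (Equiv.mulRight₀ y hy) _ _ (fun t => ?_)
      show χ⁻¹ t * ψ (t * y) = χ⁻¹ (t * y * y⁻¹) * ψ (t * y)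
      rw [mul_assoc t y, mul_inv_cancel₀ hy, mul_one]
    rw [h1, gaussSum, sum_mul]
    apply sum_congr rfl
    intro t _
    rw [map_mul, MulChar.inv_apply' χ y⁻¹, inv_inv]
    ring

theorem main : GD := by
  intro L C _ _ _ _ M ι _ _ l χ ψ hψ hχ
  rw [mul_sum]
  have h1 : ∀ x : Fin M → L, (∏ i, gaussSum (χ i)⁻¹ ψ) * ∏ i, χ i (∑ k, l i k * x k)
      = ∑ t : ι → L, (∏ i, (χ i)⁻¹ (t i)) * ∏ k, ψ ((∑ i, t i * l i k) * x k) := by
    intro x
    rw [← prod_mul_distrib]
    have h2 : ∀ i, gaussSum (χ i)⁻¹ ψ * χ i (∑ k, l i k * x k)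
        = ∑ t : L, (χ i)⁻¹ t * ψ (t * ∑ k, l i k * x k) := fun i => one (χ i) ψ (hχ i) _
    rw [prod_congr rfl (fun i _ => h2 i), Finset.prod_univ_sum, Fintype.piFinset_univ]
    apply sum_congr rfl
    intro t _
    rw [prod_mul_distrib]
    congr 1
    rw [← msum, ← msum]
    congr 1
    simp only [mul_sum, sum_mul]
    rw [sum_comm]
    apply sum_congr rfl
    intro k _
    apply sum_congr rfl
    intro i _
    ring
  rw [sum_congr rfl (fun x _ => h1 x), sum_comm]
  have h3 : ∀ t : ι → L, ∑ x : Fin M → L, (∏ i, (χ i)⁻¹ (t i)) * ∏ k, ψ ((∑ i, t i * l i k) * x k)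
      = if (∀ k, ∑ i, t i * l i k = 0) then (Fintype.card L : C) ^ M * ∏ i, (χ i)⁻¹ (t i)
        else 0 := by
    intro t
    rw [← mul_sum]
    have h4 : ∑ x : Fin M → L, ∏ k, ψ ((∑ i, t i * l i k) * x k)
        = ∏ k, ∑ y : L, ψ ((∑ i, t i * l i k) * y) := by
      rw [Finset.prod_univ_sum, Fintype.piFinset_univ]
    rw [h4]
    have h5 : ∀ k, ∑ y : L, ψ ((∑ i, t i * l i k) * y)
        = if ∑ i, t i * l i k = 0 then (Fintype.card L : C) else 0 := by
      intro k
      have h6 := AddChar.sum_mulShift (ψ := ψ) (∑ i, t i * l i k) hψ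
      push_cast at h6
      rw [← h6]
      apply sum_congr rfl
      intro y _
      rw [mul_comm]
    rw [prod_congr rfl (fun k _ => h5 k)]
    split_ifs with h
    · rw [prod_congr rfl (fun k _ => if_pos (h k)), prod_const, card_univ, Fintype.card_fin,
        mul_comm]
    · obtain ⟨k, hk⟩ := not_forall.1 h
      rw [prod_eq_zero (mem_univ k) (if_neg hk), mul_zero]
  rw [sum_congr rfl (fun t _ => h3 t), mul_sum, sum_filter]

end Pool.Agent.W800.HA.GD
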