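import Pool.Agent.W528.HA.Stm

/-! Project HA: traces of powers. -/

set_option autoImplicit false

namespace Pool.Agent.W800.HA.TE

open Finset Polynomial Pool.Agent.W528.HA

theorem nil {E : Type} [Field E] {V : Type} [AddCommGroup V] [Module E V]
    [FiniteDimensional E V] (ψ : Module.End E V) (a : E)
    (h : IsNilpotent (ψ - algebraMap E (Module.End E V) a)) (n : ℕ) :
    LinearMap.trace E V (ψ ^ n) = (Module.finrank E V : E) * a ^ n := by
  have h1 : IsNilpotent (ψ ^ n - algebraMap E (Module.End E V) (a ^ n)) := by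
    obtain ⟨q, hq⟩ := sub_dvd_pow_sub_pow (X : E[X]) (C a) n
    obtain ⟨k, hk⟩ := h
    refine ⟨k, ?_⟩
    have h2 : aeval ψ (X - C a : E[X]) = ψ - algebraMap E (Module.End E V) a := by
      simp
    have h3 : aeval ψ (X ^ n - C a ^ n : E[X]) = ψ ^ n - algebraMap E (Module.End E V) (a ^ n) := by
      simp
    rw [← h3, hq, ← map_pow, mul_pow, map_mul, map_pow (aeval ψ) (X - C a), h2, hk, zero_mul]
  have h4 := (LinearMap.isNilpotent_trace_of_isNilpotent h1).eq_zero
  rw [map_sub, sub_eq_zero] at h4
  rw [h4, Algebra.algebraMap_eq_smul_one, map_smul, LinearMap.trace_one, smul_eq_mul, mul_comm]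

theorem main : TE := by
  intro E _ _ V _ _ _ φ
  classical
  have hind := φ.independent_maxGenEigenspace
  have hfin : {a | φ.maxGenEigenspace a ≠ ⊥}.Finite :=
    WellFoundedGT.finite_ne_bot_of_iSupIndep hind
  have hint := DirectSum.isInternal_submodule_of_iSupIndep_of_iSup_eq_top hind
    (Module.End.iSup_maxGenEigenspace_eq_top φ)
  refine ⟨hfin.toFinset.filter (fun a => a ≠ 0),
    fun a => Module.finrank E (φ.maxGenEigenspace a), ?_, ?_, ?_⟩
  · intro a ha
    rw [mem_filter, Set.Finite.mem_toFinset] at ha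
    exact ⟨ha.2, Module.finrank_pos_iff.2 (Submodule.nontrivial_iff_ne_bot.2 ha.1)⟩
  · intro a ha hev
    rw [mem_filter, Set.Finite.mem_toFinset]
    refine ⟨fun h0 => ?_, ha⟩
    apply hev
    rw [eq_bot_iff, ← h0]
    exact Module.End.eigenspace_le_maxGenEigenspace
  · intro n hn
    have hcomm : ∀ a, Set.MapsTo (φ ^ n) (φ.maxGenEigenspace a) (φ.maxGenEigenspace a) :=
      fun a => φ.mapsTo_maxGenEigenspace_of_comm (Commute.pow_right (Commute.refl φ) n) a
    rw [LinearMap.trace_eq_sum_trace_restrict' hint hfin hcomm]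
    have hterm : ∀ a, LinearMap.trace E (φ.maxGenEigenspace a) ((φ ^ n).restrict (hcomm a))
        = (Module.finrank E (φ.maxGenEigenspace a) : E) * a ^ n := by
      intro a
      have hm := φ.mapsTo_maxGenEigenspace_of_comm (Commute.refl φ) a
      have h5 := nil (φ.restrict hm) a (φ.isNilpotent_restrict_maxGenEigenspace_sub_algebraMap a) n
      rw [← h5]
      exact congrArg _ (Module.End.pow_restrict n hm (hcomm a)).symm
    rw [Finset.sum_congr rfl (fun a _ => hterm a)]
    symm
    rw [Finset.sum_filter]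
    apply Finset.sum_congr rfl
    intro a _
    split_ifs with h
    · rfl
    · rw [not_not.1 h, zero_pow (by omega), mul_zero]

end Pool.Agent.W800.HA.TE
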